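import Mathlib
import Pool.Agent.W533.PP.Stm

/-!
# Project PP: labels of the children of an inversion sequence
-/

set_option autoImplicit false

namespace Pool.Agent.W428.PP.Ilab

open Finset Pool.Agent.W533.PP
open scoped Classical

lemma le_Mx {n : ℕ} (e : Fin (n+1) → ℕ) (i : Fin (n+1)) : e i ≤ Mx e :=
  Finset.le_sup (f := e) (Finset.mem_univ i)

lemma Mx_le {n : ℕ} (e : Fin (n+1) → ℕ) (h : Inv e) : Mx e ≤ n := by
  refine Finset.sup_le fun i _ => ?_
  have := h.1 i
  have := i.2
  omega

lemma Mx_app {n : ℕ} (e : Fin (n+1) → ℕ) (x : ℕ) : Mx (app e x) = max (Mx e) x := by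
  apply le_antisymm
  · refine Finset.sup_le fun i _ => ?_
    induction i using Fin.lastCases with
    | last => rw [app_last]; exact le_max_right _ _
    | cast i => rw [app_castSucc]; exact le_trans (le_Mx e i) (le_max_left _ _)
  · refine max_le ?_ ?_
    · refine Finset.sup_le fun i _ => ?_
      have := le_Mx (app e x) i.castSucc
      rwa [app_castSucc] at this
    · have := le_Mx (app e x) (Fin.last (n+1))
      rwa [app_last] at this

lemma free {n : ℕ} (e : Fin (n+1) → ℕ) (y : ℕ) (h : Mx e < y) :
    ∀ i j : Fin (n+1), i < j → ¬ (e j < y ∧ y ≤ e i) := by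
  intro i j _ hc
  have := le_Mx e i
  omega

/-- all values above the maximum are active -/
lemma bL_eq {n : ℕ} (e : Fin (n+1) → ℕ) : bL e = n + 2 - (Mx e + 1) := by
  unfold bL
  rw [Finset.filter_true_of_mem, Nat.card_Ico]
  intro y hy
  rw [Finset.mem_Ico] at hy
  exact ⟨by omega, free e y (by omega)⟩

theorem ilab (h : IACT) : ILAB := by
  intro n e he x hx
  have hM := Mx_le e he
  have hx1 : x ≤ n + 1 := hx.1
  refine ⟨by rw [bL_eq]; omega, ?_, ?_⟩
  · intro hxM
    have hMa : Mx (app e x) = Mx e := by rw [Mx_app]; omega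
    refine ⟨?_, by rw [bL_eq, bL_eq, hMa]; omega⟩
    unfold aL aI
    rw [hMa]
    congr 1
    ext s
    simp only [Finset.mem_filter, Finset.mem_range]
    rw [h n e x s]
    unfold ActI
    constructor
    · rintro ⟨h1, h2, h3, h4⟩
      have h5 : s ≤ x := by
        by_contra hc
        exact h4 ⟨by omega, by omega⟩
      exact ⟨⟨by omega, by omega, h3⟩, h5⟩
    · rintro ⟨⟨h1, h2, h3⟩, h4⟩
      exact ⟨by omega, by omega, h3, fun hc => by omega⟩
  · intro hxM
    have hMa : Mx (app e x) = x := by rw [Mx_app]; omega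
    refine ⟨?_, by rw [bL_eq, hMa]; omega⟩
    unfold aL
    rw [hMa]
    have hsplit : (Finset.range (x + 1)).filter (fun s => ActI (app e x) s) =
        (Finset.range (Mx e + 1)).filter (fun s => ActI e s) ∪ Finset.Ico (Mx e + 1) (x + 1) := by
      ext s
      simp only [Finset.mem_filter, Finset.mem_range, Finset.mem_union, Finset.mem_Ico]
      rw [h n e x s]
      unfold ActI
      constructor
      · rintro ⟨h1, h2, h3, h4⟩
        by_cases hs : s < Mx e + 1
        · exact Or.inl ⟨hs, by omega, h3⟩
        · exact Or.inr ⟨by omega, h1⟩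
      · rintro (⟨h1, h2, h3⟩ | ⟨h1, h2⟩)
        · exact ⟨by omega, by omega, h3, fun hc => by omega⟩
        · exact ⟨h2, by omega, free e s (by omega), fun hc => by omega⟩
    rw [hsplit, Finset.card_union_of_disjoint, Nat.card_Ico]
    · omega
    · rw [Finset.disjoint_left]
      intro s hs hs'
      rw [Finset.mem_filter, Finset.mem_range] at hs
      rw [Finset.mem_Ico] at hs'
      omega

end Pool.Agent.W428.PP.Ilab
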